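import Mathlib

set_option autoImplicit false

namespace Pool.Agent.Results.MP_8c5d11_nt.LongCycle

/-- Decimal digit reversal: read the base-10 digits of `D` in reverse order
(leading zeros of the result are dropped automatically). -/
def rev (D : ℕ) : ℕ := Nat.ofDigits 10 (Nat.digits 10 D).reverse

/-- The add-or-subtract reversal map: `D - rev D` if `rev D < D`, and `D + rev D` otherwise. -/
def T (D : ℕ) : ℕ := if rev D < D then D - rev D else D + rev D

/-- A 131-digit integer on a cycle of length 120. -/
def D0 : ℕ :=
  97237810989008110872000000099100099188912799890109910791079100109890089208920899890109918891279990089990000008110872001099902762189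

/-- Fuel-driven version of `rev` used only for evaluation. -/
def revAux : ℕ → ℕ → ℕ → ℕ
  | 0, _, acc => acc
  | f + 1, n, acc => if n = 0 then acc else revAux f (n / 10) (10 * acc + n % 10)

theorem revAux_eq (f : ℕ) : ∀ n acc : ℕ, n < 10 ^ f →
    revAux f n acc = Nat.ofDigits 10 ((Nat.digits 10 n).reverse) + 10 ^ (Nat.digits 10 n).length * acc := by
  induction f with
  | zero => intro n acc h; have : n = 0 := by omega
            subst this; simp [revAux]
  | succ f ih =>
    intro n acc h
    unfold revAux
    split_ifs with h0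
    · subst h0; simp
    · rw [ih (n / 10) _ (by rw [pow_succ] at h; omega)]
      rw [Nat.digits_def' (by norm_num) (Nat.pos_of_ne_zero h0)]
      simp only [List.reverse_cons, Nat.ofDigits_append, List.length_reverse, List.length_cons,
        Nat.ofDigits_singleton]
      ring

def Tf (D : ℕ) : ℕ := if revAux 200 D 0 < D then D - revAux 200 D 0 else D + revAux 200 D 0

theorem Tf_eq (D : ℕ) (h : D < 10 ^ 200) : T D = Tf D := by
  have : revAux 200 D 0 = rev D := by rw [revAux_eq 200 D 0 h]; simp [rev]
  simp [T, Tf, this]

theorem bound : ∀ k < 121, Tf^[k] D0 < 10 ^ 200 := by decide +kernel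

theorem iter_eq (k : ℕ) (hk : k < 121) : T^[k] D0 = Tf^[k] D0 := by
  induction k with
  | zero => rfl
  | succ k ih =>
    rw [Function.iterate_succ_apply', Function.iterate_succ_apply', ih (by omega),
      Tf_eq _ (bound k (by omega))]

theorem ret : Tf^[120] D0 = D0 := by decide +kernel

theorem noret : ∀ k < 120, 0 < k → Tf^[k] D0 ≠ D0 := by decide +kernel

theorem result :
    ∃ D : ℕ, 0 < D ∧ ∃ p : ℕ, 71 < p ∧ T^[p] D = D ∧ ∀ k : ℕ, 0 < k → k < p → T^[k] D ≠ D := by
  refine ⟨D0, by decide +kernel, 120, by norm_num, ?_, ?_⟩
  · rw [iter_eq 120 (by norm_num)]; exact ret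
  · intro k h0 hk
    rw [iter_eq k (by omega)]; exact noret k hk h0

example : rev 10890 = 9801 := by simp [rev, Nat.ofDigits]
example : T 1089 = 10890 ∧ T 10890 = 1089 := by simp [T, rev, Nat.ofDigits]

end Pool.Agent.Results.MP_8c5d11_nt.LongCycle
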